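import Pool.Agent.D0H56.MD.Defs

/-! # The archimedean bound of the interpolation determinant -/

set_option autoImplicit false

open Module Polynomial Finset

namespace Pool.Agent.D0H98.MD

open Pool.Agent.D0H56.MD

lemma pow_bd {a X : ℝ} {k N : ℕ} (ha : 0 ≤ a) (haX : a ≤ X) (hX : 1 ≤ X) (hk : k ≤ N) :
    a ^ k ≤ X ^ N :=
  (pow_le_pow_left₀ ha haX k).trans (pow_le_pow_right₀ hX hk)

lemma sum_fin_add (T : ℕ) : ∑ ij : Fin T × Fin T, ((ij.1 : ℕ) + (ij.2 : ℕ)) = T ^ 2 * (T - 1) := by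
  rw [Fintype.sum_prod_type]
  have h1 : ∑ j : Fin T, (j : ℕ) = ∑ j ∈ range T, j := Fin.sum_univ_eq_sum_range (fun j => j) T
  simp_rw [sum_add_distrib]
  simp only [sum_const, card_univ, Fintype.card_fin, smul_eq_mul]
  rw [← mul_sum, h1]
  have h2 := Finset.sum_range_id_mul_two T
  calc T * ∑ i ∈ range T, i + T * ∑ j ∈ range T, j = T * ((∑ i ∈ range T, i) * 2) := by ring
    _ = _ := by rw [h2]; ring

theorem arch : S_ARCH := by
  intro K _ _ x y N T P M hN hM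
  classical
  have hNr : (1 : ℝ) ≤ N := by exact_mod_cast hN
  set X : (K →+* ℂ) → ℝ := fun σ => max 1 ‖σ x‖ with hX
  set Y : (K →+* ℂ) → ℝ := fun σ => max 1 ‖σ y‖ with hY
  have hX1 : ∀ σ, 1 ≤ X σ := fun σ => le_max_left _ _
  have hY1 : ∀ σ, 1 ≤ Y σ := fun σ => le_max_left _ _
  have hX0 : ∀ σ, 0 < X σ := fun σ => lt_of_lt_of_le one_pos (hX1 σ)
  have hY0 : ∀ σ, 0 < Y σ := fun σ => lt_of_lt_of_le one_pos (hY1 σ)
  have hxX : ∀ σ, ‖σ x‖ ≤ X σ := fun σ => le_max_right _ _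
  have hyY : ∀ σ, ‖σ y‖ ≤ Y σ := fun σ => le_max_right _ _
  -- the bound of a row
  set B1 : (K →+* ℂ) → J T P → ℝ := fun σ ρ => Sum.elim
    (fun ij : Fin T × Fin T => (N : ℝ) ^ ((ij.1 : ℕ) + (ij.2 : ℕ)) * (X σ * Y σ) ^ N)
    (fun p : P => (X σ * Y σ) ^ (N * (p : ℕ))) ρ with hB1
  have hB0 : ∀ σ ρ, 0 ≤ B1 σ ρ := by
    intro σ ρ
    have := hX0 σ
    have := hY0 σ
    rcases ρ with ij | p
    · simp only [hB1, Sum.elim_inl]; positivity
    · simp only [hB1, Sum.elim_inr]; positivity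
  have hrow : ∀ r s : (K →+* ℂ) × J T P, ‖r.1 (u T P x y r.2 (M s))‖ ≤ B1 r.1 r.2 := by
    rintro ⟨σ, ρ⟩ s
    obtain ⟨hm, hn⟩ := hM s
    rcases ρ with ij | p
    · simp only [hB1, Sum.elim_inl, u]
      rw [map_mul, map_mul, map_mul, map_pow, map_pow, map_natCast, map_natCast, norm_mul, norm_mul,
        norm_mul, norm_pow, norm_pow, Complex.norm_natCast, Complex.norm_natCast]
      have c1 : (((M s).1.choose (ij.1 : ℕ) : ℕ) : ℝ) ≤ (N : ℝ) ^ (ij.1 : ℕ) := by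
        have h1 : (M s).1.choose (ij.1 : ℕ) ≤ N ^ (ij.1 : ℕ) :=
          (Nat.choose_le_pow _ _).trans (Nat.pow_le_pow_left hm.le _)
        exact_mod_cast h1
      have c2 : (((M s).2.choose (ij.2 : ℕ) : ℕ) : ℝ) ≤ (N : ℝ) ^ (ij.2 : ℕ) := by
        have h1 : (M s).2.choose (ij.2 : ℕ) ≤ N ^ (ij.2 : ℕ) :=
          (Nat.choose_le_pow _ _).trans (Nat.pow_le_pow_left hn.le _)
        exact_mod_cast h1
      have c3 : ‖σ x‖ ^ ((M s).1 - (ij.1 : ℕ)) ≤ X σ ^ N :=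
        pow_bd (norm_nonneg _) (hxX σ) (hX1 σ) (by omega)
      have c4 : ‖σ y‖ ^ ((M s).2 - (ij.2 : ℕ)) ≤ Y σ ^ N :=
        pow_bd (norm_nonneg _) (hyY σ) (hY1 σ) (by omega)
      have x0 := hX0 σ
      have y0 := hY0 σ
      calc (((M s).1.choose (ij.1 : ℕ) : ℕ) : ℝ) * ‖σ x‖ ^ ((M s).1 - (ij.1 : ℕ)) *
          ((((M s).2.choose (ij.2 : ℕ) : ℕ) : ℝ) * ‖σ y‖ ^ ((M s).2 - (ij.2 : ℕ))) ≤
          ((N : ℝ) ^ (ij.1 : ℕ) * X σ ^ N) * ((N : ℝ) ^ (ij.2 : ℕ) * Y σ ^ N) := by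
            gcongr
        _ = _ := by rw [pow_add, mul_pow]; ring
    · simp only [hB1, Sum.elim_inr, u]
      rw [map_mul, map_pow, map_pow, map_pow, map_pow, norm_mul, norm_pow, norm_pow, norm_pow,
        norm_pow, ← pow_mul, ← pow_mul, mul_pow]
      have c3 : ‖σ x‖ ^ ((p : ℕ) * (M s).1) ≤ X σ ^ (N * (p : ℕ)) := by
        refine pow_bd (norm_nonneg _) (hxX σ) (hX1 σ) ?_
        rw [mul_comm]
        exact Nat.mul_le_mul_right _ hm.le
      have c4 : ‖σ y‖ ^ ((p : ℕ) * (M s).2) ≤ Y σ ^ (N * (p : ℕ)) := by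
        refine pow_bd (norm_nonneg _) (hyY σ) (hY1 σ) ?_
        rw [mul_comm]
        exact Nat.mul_le_mul_right _ hn.le
      have x0 := hX0 σ
      have y0 := hY0 σ
      gcongr
  have hcard : Fintype.card ((K →+* ℂ) × J T P) = finrank ℚ K * (T ^ 2 + P.card) := by
    rw [Fintype.card_prod, NumberField.Embeddings.card, Fintype.card_sum, Fintype.card_prod,
      Fintype.card_fin, Fintype.card_coe, sq]
  have hdet : ‖Dl T P x y M‖ ≤
      (Nat.factorial (finrank ℚ K * (T ^ 2 + P.card)) : ℝ) *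
        ∏ r : (K →+* ℂ) × J T P, B1 r.1 r.2 := by
    unfold Dl
    rw [Matrix.det_apply]
    refine (norm_sum_le _ _).trans ?_
    have h1 : ∀ τ ∈ (univ : Finset (Equiv.Perm ((K →+* ℂ) × J T P))),
        ‖Equiv.Perm.sign τ • ∏ i, (Matrix.of fun r s : (K →+* ℂ) × J T P =>
          r.1 (u T P x y r.2 (M s))) (τ i) i‖ ≤ ∏ r : (K →+* ℂ) × J T P, B1 r.1 r.2 := by
      intro τ _
      have h2 : ‖Equiv.Perm.sign τ • ∏ i, (Matrix.of fun r s : (K →+* ℂ) × J T P =>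
          r.1 (u T P x y r.2 (M s))) (τ i) i‖ =
          ∏ i, ‖(Matrix.of fun r s : (K →+* ℂ) × J T P =>
          r.1 (u T P x y r.2 (M s))) (τ i) i‖ := by
        rcases Int.units_eq_one_or (Equiv.Perm.sign τ) with h | h
        · rw [h, one_smul, norm_prod]
        · rw [h, Units.neg_smul, one_smul, norm_neg, norm_prod]
      rw [h2]
      calc ∏ i, ‖(Matrix.of fun r s : (K →+* ℂ) × J T P =>
          r.1 (u T P x y r.2 (M s))) (τ i) i‖ ≤ ∏ i, B1 (τ i).1 (τ i).2 :=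
            prod_le_prod (fun _ _ => norm_nonneg _) fun i _ => hrow (τ i) i
        _ = _ := Equiv.prod_comp τ (fun r : (K →+* ℂ) × J T P => B1 r.1 r.2)
    refine (sum_le_card_nsmul _ _ _ h1).trans (le_of_eq ?_)
    rw [card_univ, Fintype.card_perm, hcard, nsmul_eq_mul]
  refine hdet.trans ?_
  rw [mul_assoc]
  refine mul_le_mul_of_nonneg_left ?_ (by positivity)
  have hprod : ∀ σ : K →+* ℂ, ∏ ρ : J T P, B1 σ ρ = (N : ℝ) ^ (T ^ 2 * (T - 1)) *
      (X σ * Y σ) ^ (N * (T ^ 2 + ∑ p ∈ P, p)) := by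
    intro σ
    rw [Fintype.prod_sum_type]
    simp only [hB1, Sum.elim_inl, Sum.elim_inr]
    rw [prod_mul_distrib, prod_pow_eq_pow_sum, sum_fin_add, prod_const, card_univ,
      Fintype.card_prod, Fintype.card_fin, prod_pow_eq_pow_sum, ← mul_sum,
      Finset.sum_coe_sort P (fun p => p), mul_assoc, ← pow_mul, ← pow_add]
    congr 2
    ring
  rw [Fintype.prod_prod_type]
  simp_rw [hprod]
  rw [prod_mul_distrib, prod_const, card_univ, NumberField.Embeddings.card, prod_pow,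
    prod_mul_distrib, ← pow_mul]
  have hle : (N : ℝ) ^ (T ^ 2 * (T - 1) * finrank ℚ K) ≤ (N : ℝ) ^ (finrank ℚ K * T ^ 3) := by
    refine pow_le_pow_right₀ hNr ?_
    rw [mul_comm]
    refine Nat.mul_le_mul_left _ ?_
    calc T ^ 2 * (T - 1) ≤ T ^ 2 * T := Nat.mul_le_mul_left _ (Nat.sub_le _ _)
      _ = T ^ 3 := by ring
  have hp : (0 : ℝ) ≤ ((∏ σ : K →+* ℂ, X σ) * ∏ σ : K →+* ℂ, Y σ) ^ (N * (T ^ 2 + ∑ p ∈ P, p)) := by
    have h1 : 0 ≤ ∏ σ : K →+* ℂ, X σ := prod_nonneg fun σ _ => (hX0 σ).le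
    have h2 : 0 ≤ ∏ σ : K →+* ℂ, Y σ := prod_nonneg fun σ _ => (hY0 σ).le
    positivity
  exact mul_le_mul_of_nonneg_right hle hp

end Pool.Agent.D0H98.MD
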