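import Pool.Agent.D0H56.MD.Defs

/-! # A basis of monomials and its determinant -/

set_option autoImplicit false

open Module Polynomial Finset

namespace Pool.Agent.D0H98.MD

open Pool.Agent.D0H56.MD

lemma u_int {R : Type} [CommRing R] (T : ℕ) (P : Finset ℕ) {x y : R} (hx : IsIntegral ℤ x)
    (hy : IsIntegral ℤ y) (ρ : J T P) (m : ℕ × ℕ) : IsIntegral ℤ (u T P x y ρ m) := by
  have hn : ∀ n : ℕ, IsIntegral ℤ (n : R) := fun n => by
    have := isIntegral_algebraMap (R := ℤ) (A := R) (x := (n : ℤ))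
    simpa using this
  rcases ρ with ij | p
  · exact ((hn _).mul (hx.pow _)).mul ((hn _).mul (hy.pow _))
  · exact ((hx.pow _).pow _).mul ((hy.pow _).pow _)

lemma trace_emb (K : Type) [Field K] [NumberField K] (z : K) :
    ((Algebra.trace ℚ K z : ℚ) : ℂ) = ∑ σ : K →+* ℂ, σ z := by
  have h := trace_eq_sum_embeddings (K := ℚ) (L := K) ℂ (x := z)
  rw [eq_ratCast] at h
  rw [h]
  exact (Fintype.sum_equiv (RingHom.equivRatAlgHom K ℂ) (fun σ : K →+* ℂ => σ z)
    (fun σ : K →ₐ[ℚ] ℂ => σ z) (fun σ => rfl)).symm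

lemma trace_int (K : Type) [Field K] [NumberField K] {z : K} (hz : IsIntegral ℤ z) :
    ∃ a : ℤ, (a : ℚ) = Algebra.trace ℚ K z := by
  have h : IsIntegral ℤ (Algebra.trace ℚ K z) := Algebra.isIntegral_trace hz
  obtain ⟨a, ha⟩ := (IsIntegrallyClosed.isIntegral_iff (R := ℤ) (K := ℚ)).1 h
  exact ⟨a, by simpa using ha⟩

theorem det : S_DET := by
  intro K _ _ x y N T P hx hy hspan
  classical
  set w : Fin N × Fin N → (J T P → K) := fun mn ρ => u T P x y ρ ((mn.1 : ℕ), (mn.2 : ℕ)) with hwdef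
  have hw : Submodule.span ℚ (Set.range w) = ⊤ := by
    rw [← hspan]
    congr 1
    ext v
    constructor
    · rintro ⟨⟨m, n⟩, rfl⟩
      exact ⟨m, n, m.2, n.2, rfl⟩
    · rintro ⟨m, n, hm, hn, rfl⟩
      exact ⟨(⟨m, hm⟩, ⟨n, hn⟩), rfl⟩
  obtain ⟨κ, a, ha, hsp, hli⟩ := exists_linearIndependent' ℚ w
  set b : Basis κ ℚ (J T P → K) := Basis.mk hli (by rw [hsp, hw]) with hb
  have : Fintype κ := FiniteDimensional.fintypeBasisIndex b
  have hc : Fintype.card ((K →+* ℂ) × J T P) = Fintype.card κ := by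
    rw [← Module.finrank_eq_card_basis b, Module.finrank_pi_fintype, Fintype.card_prod,
      NumberField.Embeddings.card]
    simp [mul_comm]
  set e : (K →+* ℂ) × J T P ≃ κ := Fintype.equivOfCardEq hc with he
  set M : (K →+* ℂ) × J T P → ℕ × ℕ := fun r => (((a (e r)).1 : ℕ), ((a (e r)).2 : ℕ)) with hM
  have hMw : ∀ r ρ, u T P x y ρ (M r) = b (e r) ρ := by
    intro r ρ
    rw [hb, Basis.mk_apply]
    rfl
  refine ⟨M, fun r => ⟨(a (e r)).1.2, (a (e r)).2.2⟩, ?_⟩
  -- the Gram matrix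
  have hint : ∀ s s' : (K →+* ℂ) × J T P, ∃ g : ℤ, (g : ℚ) =
      ∑ ρ, Algebra.trace ℚ K (u T P x y ρ (M s) * u T P x y ρ (M s')) := by
    intro s s'
    have h1 : ∀ ρ, ∃ g : ℤ, (g : ℚ) =
        Algebra.trace ℚ K (u T P x y ρ (M s) * u T P x y ρ (M s')) := fun ρ =>
      trace_int K ((u_int T P hx hy ρ _).mul (u_int T P hx hy ρ _))
    choose g hg using h1
    refine ⟨∑ ρ, g ρ, ?_⟩
    push_cast
    exact sum_congr rfl fun ρ _ => hg ρ
  choose g hg using hint
  set G : Matrix ((K →+* ℂ) × J T P) ((K →+* ℂ) × J T P) ℤ := Matrix.of g with hG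
  refine ⟨G.det, ?_, ?_⟩
  · intro h0
    set Gq : Matrix ((K →+* ℂ) × J T P) ((K →+* ℂ) × J T P) ℚ := G.map (Int.cast : ℤ → ℚ) with hGq
    have h1 : Gq.det = 0 := by
      have := (Int.castRingHom ℚ).map_det G
      rw [h0, map_zero] at this
      rw [hGq]
      exact this.symm
    obtain ⟨c, hc0, hcz⟩ := Matrix.exists_mulVec_eq_zero_iff.2 h1
    set W : J T P → K := ∑ s, c s • b (e s) with hW
    have hW0 : W ≠ 0 := by
      intro hW0
      apply hc0
      have hli2 : LinearIndependent ℚ (fun s => b (e s)) := b.linearIndependent.comp e e.injective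
      have := Fintype.linearIndependent_iff.1 hli2 c (by rw [← hW]; exact hW0)
      funext s
      exact this s
    -- the functional
    set φ : (J T P → K) →ₗ[ℚ] ℚ := ∑ ρ, (Algebra.trace ℚ K).comp
      ((LinearMap.mulRight ℚ (W ρ)).comp (LinearMap.proj ρ)) with hφ
    have hφa : ∀ z, φ z = ∑ ρ, Algebra.trace ℚ K (z ρ * W ρ) := by
      intro z
      rw [hφ, LinearMap.sum_apply]
      rfl
    have hφ0 : φ = 0 := by
      refine (b.reindex e.symm).ext fun s' => ?_
      rw [Basis.reindex_apply, Equiv.symm_symm, hφa]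
      have h2 := congrFun hcz s'
      rw [Matrix.mulVec, dotProduct] at h2
      have h3 : ∑ ρ, Algebra.trace ℚ K (b (e s') ρ * W ρ) = ∑ s, Gq s' s * c s := by
        have h4 : ∀ ρ, Algebra.trace ℚ K (b (e s') ρ * W ρ) =
            ∑ s, Algebra.trace ℚ K (b (e s') ρ * b (e s) ρ) * c s := by
          intro ρ
          have h5 : b (e s') ρ * W ρ = ∑ s, c s • (b (e s') ρ * b (e s) ρ) := by
            rw [hW, Finset.sum_apply, mul_sum]
            refine sum_congr rfl fun s _ => ?_
            rw [Pi.smul_apply, mul_smul_comm]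
          rw [h5, map_sum]
          refine sum_congr rfl fun s _ => ?_
          rw [map_smul, smul_eq_mul, mul_comm]
        simp_rw [h4]
        rw [sum_comm]
        refine sum_congr rfl fun s _ => ?_
        rw [← sum_mul]
        congr 1
        have h6 : Gq s' s = (g s' s : ℚ) := rfl
        rw [h6, hg]
        refine sum_congr rfl fun ρ _ => ?_
        rw [hMw, hMw]
      rw [h3]
      exact h2
    obtain ⟨ρ, hρ⟩ : ∃ ρ, W ρ ≠ 0 := by
      by_contra hcon
      push Not at hcon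
      exact hW0 (funext hcon)
    have h7 : φ (Pi.single ρ (W ρ)⁻¹) = (finrank ℚ K : ℚ) := by
      rw [hφa, sum_eq_single ρ]
      · rw [Pi.single_eq_same, inv_mul_cancel₀ hρ]
        have := Algebra.trace_algebraMap (R := ℚ) (S := K) (1 : ℚ)
        rw [map_one] at this
        rw [this]
        simp
      · intro ρ' _ hne
        rw [Pi.single_eq_of_ne hne, zero_mul, map_zero]
      · intro h; exact absurd (mem_univ _) h
    rw [hφ0, LinearMap.zero_apply] at h7
    have : (finrank ℚ K : ℚ) ≠ 0 := by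
      have := finrank_pos (R := ℚ) (M := K)
      positivity
    exact this h7.symm
  · unfold Dl
    set D : Matrix ((K →+* ℂ) × J T P) ((K →+* ℂ) × J T P) ℂ :=
      Matrix.of fun r s => r.1 (u T P x y r.2 (M s)) with hD
    have h1 : D.transpose * D = G.map (Int.cast : ℤ → ℂ) := by
      ext s s'
      rw [Matrix.mul_apply, Matrix.map_apply]
      have h2 : ((G s s' : ℤ) : ℂ) = ((g s s' : ℚ) : ℂ) := by
        rw [hG]; simp
      rw [h2, hg, Rat.cast_sum, Fintype.sum_prod_type, sum_comm]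
      refine sum_congr rfl fun ρ _ => ?_
      rw [trace_emb]
      refine sum_congr rfl fun σ _ => ?_
      rw [map_mul]
      rfl
    have h3 : (G.map (Int.cast : ℤ → ℂ)).det = (G.det : ℂ) := ((Int.castRingHom ℂ).map_det G).symm
    have h4 : D.det ^ 2 = (G.det : ℂ) := by
      rw [← h3, ← h1, Matrix.det_mul, Matrix.det_transpose, sq]
    rw [← h4]

end Pool.Agent.D0H98.MD
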