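import Pool.Agent.D0H56.MD.Defs4
import Pool.Agent.D0H37.MD.Param

/-! # Choice of the parameters, version with growth -/

set_option autoImplicit false

namespace Pool.Agent.D0H98.MD

open Real Filter Finset

/-- many primes between `√X` and `X` outside two sparse sets -/
lemma many_primes (X K : ℕ) (L V b1 b2 : ℝ) (hX1 : 1 ≤ X) (hLX : log (X : ℝ) ≤ L)
    (hθ : V / 2 ≤ Chebyshev.theta X) (B₁ B₂ : Finset ℕ) (h1 : (B₁.card : ℝ) ≤ b1)
    (h2 : (B₂.card : ℝ) ≤ b2) (hbig : (K + √(X : ℝ) + b1 + b2) * L < V / 2) :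
    ∃ P : Finset ℕ, (∀ p ∈ P, p.Prime ∧ p ≤ X ∧ p ∉ B₁ ∧ p ∉ B₂) ∧ P.card = K ∧
      ∀ p ∈ P, √(X : ℝ) ≤ p := by
  classical
  set F := (Ioc 0 X).filter Nat.Prime with hF
  set S := F.filter (fun p : ℕ => (p : ℝ) < √(X : ℝ)) with hS
  set R := F \ (S ∪ B₁ ∪ B₂) with hR
  have hXr : (1 : ℝ) ≤ X := by exact_mod_cast hX1
  have hlX0 : 0 ≤ log (X : ℝ) := log_nonneg hXr
  have hL0 : 0 ≤ L := hlX0.trans hLX
  -- `θ(X) ≤ |F| log X`
  have t1 : Chebyshev.theta X ≤ F.card * log X := by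
    have e : Chebyshev.theta X = ∑ p ∈ F, log (p : ℝ) := by
      simp [Chebyshev.theta, hF]
    rw [e, ← nsmul_eq_mul]
    refine Finset.sum_le_card_nsmul _ _ _ fun p hp => ?_
    rw [hF, mem_filter, mem_Ioc] at hp
    exact log_le_log (by exact_mod_cast hp.1.1) (by exact_mod_cast hp.1.2)
  have hScard : (S.card : ℝ) ≤ √(X : ℝ) := by
    have hsub : S ⊆ Icc 1 ⌊√(X : ℝ)⌋₊ := by
      intro p hp
      rw [hS, mem_filter, hF, mem_filter, mem_Ioc] at hp
      rw [mem_Icc]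
      exact ⟨hp.1.1.1, Nat.le_floor hp.2.le⟩
    have := card_le_card hsub
    rw [Nat.card_Icc, Nat.add_sub_cancel] at this
    calc (S.card : ℝ) ≤ (⌊√(X : ℝ)⌋₊ : ℝ) := by exact_mod_cast this
      _ ≤ √(X : ℝ) := Nat.floor_le (sqrt_nonneg _)
  have hFcard : (F.card : ℝ) ≤ R.card + √(X : ℝ) + b1 + b2 := by
    have h3 : F.card ≤ R.card + (S ∪ B₁ ∪ B₂).card := by
      have h4 : F ⊆ R ∪ (S ∪ B₁ ∪ B₂) := by
        intro p hp
        by_cases h : p ∈ S ∪ B₁ ∪ B₂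
        · exact mem_union_right _ h
        · exact mem_union_left _ (by rw [hR]; exact Finset.mem_sdiff.2 ⟨hp, h⟩)
      exact (card_le_card h4).trans (card_union_le _ _)
    have h5 : (S ∪ B₁ ∪ B₂).card ≤ S.card + B₁.card + B₂.card :=
      (card_union_le _ _).trans (Nat.add_le_add_right (card_union_le _ _) _)
    have h6 : (F.card : ℝ) ≤ R.card + (S.card + B₁.card + B₂.card) := by
      exact_mod_cast h3.trans (Nat.add_le_add_left h5 _)
    linarith
  have hK : K ≤ R.card := by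
    by_contra hcon
    rw [not_le] at hcon
    have h3 : (R.card : ℝ) ≤ K := by exact_mod_cast hcon.le
    have h4 : V / 2 ≤ (K + √(X : ℝ) + b1 + b2) * L := by
      calc V / 2 ≤ F.card * log X := hθ.trans t1
        _ ≤ (K + √(X : ℝ) + b1 + b2) * L := by
            refine mul_le_mul (by linarith) hLX hlX0 ?_
            have := sqrt_nonneg (X : ℝ)
            have : (0 : ℝ) ≤ F.card := by positivity
            linarith
    linarith
  obtain ⟨P, hPR, hPc⟩ := Finset.exists_subset_card_eq hK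
  refine ⟨P, ?_, hPc, ?_⟩
  · intro p hp
    have h3 := hPR hp
    rw [hR, Finset.mem_sdiff, mem_union, mem_union] at h3
    have h4 := h3.1
    rw [hF, mem_filter, mem_Ioc] at h4
    refine ⟨h4.2, h4.1.2, fun h => h3.2 (Or.inl (Or.inr h)), fun h => h3.2 (Or.inr h)⟩
  · intro p hp
    have h3 := hPR hp
    rw [hR, Finset.mem_sdiff, mem_union, mem_union] at h3
    by_contra h4
    rw [not_le] at h4
    exact h3.2 (Or.inl (Or.inl (mem_filter.2 ⟨h3.1, h4⟩)))

theorem t_PARAM3 : Pool.Agent.D0H56.MD.S_PARAM3 := by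
  intro δ a c hδ ha hac hc
  -- exponents
  obtain ⟨a', ha1, ha2⟩ : ∃ a' : ℝ, a < a' ∧ a' < (1 - 3 * δ) / 4 - a :=
    exists_between (by linarith)
  have ha'0 : 0 < a' := by linarith
  obtain ⟨u, hu1, hu2⟩ : ∃ u : ℝ, a + δ + a' < u ∧ u < (1 - a - a') / 3 :=
    exists_between (by linarith)
  have hu0 : 0 < u := by linarith
  have hδ5 : δ < 1 / 3 := by linarith
  have ha'6 : a' < 1 / 4 := by linarith
  have hu5 : u < 1 / 3 := by linarith
  -- constants
  obtain ⟨T, hT⟩ : ∃ T : ℕ, 15 / a' ≤ T := exists_nat_ge _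
  have hTr : (1 : ℝ) ≤ T := by
    have : (15 : ℝ) ≤ 15 / a' := by
      rw [le_div_iff₀ ha'0]; linarith
    linarith
  have hT1 : 1 ≤ T := by exact_mod_cast hTr
  have hTa : 3 ≤ T * a' / 5 := by
    rw [div_le_iff₀ ha'0] at hT
    linarith
  set K : ℕ := 2 * T ^ 3 with hK
  have hKr : (K : ℝ) = 2 * (T : ℝ) ^ 3 := by rw [hK]; push_cast; ring
  set A : ℝ := (T : ℝ) ^ 2 + K with hA
  set G : ℝ := 4 * T + 2 * K + 1 with hG
  have hA1 : 1 ≤ A := by
    rw [hA]
    have : (1 : ℝ) ≤ (T : ℝ) ^ 2 := one_le_pow₀ hTr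
    have : (0 : ℝ) ≤ K := Nat.cast_nonneg K
    linarith
  have hG1 : 1 ≤ G := by
    rw [hG]
    have : (0 : ℝ) ≤ K := Nat.cast_nonneg K
    linarith
  set C0 : ℝ := A * log A + (T : ℝ) ^ 3 * log (4 * G) + 1 with hC0
  -- the conditions for large `d`
  have f0 : ∀ᶠ x : ℝ in atTop, 2 * C0 + K + 10 + 5 / a' ≤ log x := tendsto_log_atTop.eventually_ge_atTop _
  have f1 := Pool.Agent.D0H37.MD.ev_log 4 (1 - a' - 3 * u - a) (c / 2) (by linarith) (by positivity)
  have f2 := Pool.Agent.D0H37.MD.ev_log 1 (a' / 2) (1 / 40) (by linarith) (by positivity)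
  have f3 := Pool.Agent.D0H37.MD.ev_log 1 (a' - a) (1 / 240) (by linarith) (by positivity)
  have f4 : ∀ᶠ x : ℝ in atTop, 2 ≤ x ^ u := (tendsto_rpow_atTop hu0).eventually_ge_atTop _
  have f5 : ∀ᶠ x : ℝ in atTop, 2 ≤ x ^ (1 - 2 * u) :=
    (tendsto_rpow_atTop (by linarith)).eventually_ge_atTop _
  have f6 : ∀ᶠ x : ℝ in atTop, 20 * G * A ≤ x ^ (u - (a + δ + a')) :=
    (tendsto_rpow_atTop (by linarith)).eventually_ge_atTop _
  have f7 : ∀ᶠ x : ℝ in atTop, 2 ≤ x ^ a' := (tendsto_rpow_atTop ha'0).eventually_ge_atTop _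
  have f8 : ∀ᶠ x : ℝ in atTop, 2 ≤ x ^ (1 - a') :=
    (tendsto_rpow_atTop (by linarith)).eventually_ge_atTop _
  have F := tendsto_natCast_atTop_atTop.eventually
    (f0.and (f1.and (f2.and (f3.and (f4.and (f5.and (f6.and (f7.and (f8.and
      (eventually_ge_atTop (2 : ℝ)))))))))))
  obtain ⟨d₀, hd₀⟩ := eventually_atTop.1 F
  refine ⟨max d₀ 2, le_max_right _ _, ?_⟩
  intro d D hd hdD hD
  obtain ⟨g0, g1, g2, g3, g4, g5, g6, g7, g8, g9⟩ := hd₀ d (le_trans (le_max_left _ _) hd)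
  clear f0 f1 f2 f3 f4 f5 f6 f7 f8 F hd₀
  have hdp : (0 : ℝ) < d := by linarith
  have h1d : (1 : ℝ) ≤ d := by linarith
  have hdD' : (d : ℝ) ≤ D := by exact_mod_cast hdD
  have hDp : (0 : ℝ) < D := by linarith
  set L := log (d : ℝ) with hL
  have hlogG : 0 ≤ log (4 * G) := log_nonneg (by linarith)
  have hlogA : 0 ≤ log A := log_nonneg hA1
  have hC00 : 1 ≤ C0 := by
    rw [hC0]
    have h1 : 0 ≤ A * log A := mul_nonneg (by linarith) hlogA
    have h2 : 0 ≤ (T : ℝ) ^ 3 * log (4 * G) := by positivity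
    linarith
  have hK0 : (0 : ℝ) ≤ K := Nat.cast_nonneg K
  have h5a : 0 < 5 / a' := by positivity
  have hLC : 2 * C0 < L := by linarith
  have hLK : (K : ℝ) ≤ L := by linarith
  have hL10 : 10 ≤ L := by linarith
  have hLa : 5 / a' ≤ L := by linarith
  have hL0 : 0 < L := by linarith
  rw [pow_one] at g2 g3
  -- `V = d^a'`
  set V : ℝ := (d : ℝ) ^ a' with hV
  set W : ℝ := (d : ℝ) ^ (a' / 2) with hW
  have hW2 : W * W = V := by rw [hW, hV, ← rpow_add hdp]; congr 1; ring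
  have hW0 : 0 < W := by positivity
  have hV0 : 0 < V := by positivity
  set Z : ℝ := (d : ℝ) ^ a with hZ
  have hZ0 : 0 < Z := by positivity
  have hZV : Z * (d : ℝ) ^ (a' - a) = V := by
    rw [hZ, hV, ← rpow_add hdp]; congr 1; ring
  -- `L` against powers
  have l1 : L * L ≤ V / 1600 := by
    have : L * L ≤ (1 / 40 * W) * (1 / 40 * W) := mul_le_mul g2 g2 hL0.le (by positivity)
    calc L * L ≤ (1 / 40 * W) * (1 / 40 * W) := this
      _ = V / 1600 := by rw [← hW2]; ring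
  have l2 : W * L ≤ V / 40 := by
    calc W * L ≤ W * (1 / 40 * W) := mul_le_mul_of_nonneg_left g2 hW0.le
      _ = V / 40 := by rw [← hW2]; ring
  have l3 : Z * L ≤ V / 240 := by
    calc Z * L ≤ Z * (1 / 240 * (d : ℝ) ^ (a' - a)) := mul_le_mul_of_nonneg_left g3 hZ0.le
      _ = V / 240 := by rw [← hZV]; ring
  have l4 : L ≤ V / 1600 := by
    have : L * 1 ≤ L * L := mul_le_mul_of_nonneg_left (by linarith) hL0.le
    linarith
  -- parameters
  obtain ⟨X, hX⟩ : ∃ X : ℕ, X = ⌊V⌋₊ := ⟨_, rfl⟩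
  obtain ⟨U, hU⟩ : ∃ U : ℕ, U = ⌊(d : ℝ) ^ u⌋₊ := ⟨_, rfl⟩
  have hX1 : (X : ℝ) ≤ V := by rw [hX]; exact Nat.floor_le hV0.le
  have hX2 : V - 1 ≤ X := by rw [hX]; exact (Nat.sub_one_lt_floor _).le
  have hX3 : 1 ≤ X := by
    rw [hX]; exact Nat.le_floor (by push_cast; linarith)
  have hX3' : (1 : ℝ) ≤ X := by exact_mod_cast hX3
  have hU1 : (U : ℝ) ≤ (d : ℝ) ^ u := by rw [hU]; exact Nat.floor_le (by positivity)
  have hU2 : (d : ℝ) ^ u - 1 ≤ U := by rw [hU]; exact (Nat.sub_one_lt_floor _).le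
  have hU3 : 2 ≤ U := by rw [hU]; exact Nat.le_floor (by exact_mod_cast g4)
  have hU3' : (2 : ℝ) ≤ U := by exact_mod_cast hU3
  have hU4 : (d : ℝ) ^ u / 2 ≤ U := by linarith
  have hVd : V * 2 ≤ d := by
    have b3 : (d : ℝ) ^ (1 - a') * V = d := by
      rw [hV, ← rpow_add hdp, sub_add_cancel, rpow_one]
    calc V * 2 = 2 * V := by ring
      _ ≤ (d : ℝ) ^ (1 - a') * V := mul_le_mul_of_nonneg_right g8 hV0.le
      _ = d := b3
  have hlX : log (X : ℝ) ≤ L := log_le_log (by linarith) (by linarith)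
  have hlX1 : log ((X : ℝ) + 1) ≤ L := log_le_log (by linarith) (by linarith)
  have hlX0 : 0 ≤ log (X : ℝ) := log_nonneg hX3'
  have hsX : √(X : ℝ) ≤ W := by
    rw [show W = √V by rw [← hW2, sqrt_mul_self hW0.le]]
    exact sqrt_le_sqrt hX1
  refine ⟨U, T, X, hU3, hT1, hX3, ?_, ?_⟩
  · -- the first inequality
    have a2 : (U : ℝ) ^ 3 ≤ ((d : ℝ) ^ u) ^ 3 := pow_le_pow_left₀ (by linarith) hU1 3
    have a3 : log (2 * (U : ℝ) ^ 2) ≤ L := by
      apply log_le_log (by positivity)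
      have b1 : (U : ℝ) ^ 2 ≤ ((d : ℝ) ^ u) ^ 2 := pow_le_pow_left₀ (by linarith) hU1 2
      have b2 : ((d : ℝ) ^ u) ^ 2 = (d : ℝ) ^ (2 * u) := by
        rw [← rpow_natCast, ← rpow_mul hdp.le]; congr 1; push_cast; ring
      have b3 : (d : ℝ) ^ (1 - 2 * u) * (d : ℝ) ^ (2 * u) = d := by
        rw [← rpow_add hdp, sub_add_cancel, rpow_one]
      have b4 : 0 ≤ (d : ℝ) ^ (2 * u) := by positivity
      have b5 := mul_le_mul_of_nonneg_right g5 b4
      rw [b2] at b1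
      linarith
    have a4 : 0 ≤ log (2 * (U : ℝ) ^ 2) := by
      apply log_nonneg
      have : (1 : ℝ) ≤ (U : ℝ) ^ 2 := one_le_pow₀ (by linarith)
      linarith
    have a5 : log (2 * (U : ℝ) ^ 2) ^ 4 ≤ L ^ 4 := pow_le_pow_left₀ a4 a3 4
    have a6 : ((d : ℝ) ^ u) ^ 3 = (d : ℝ) ^ (3 * u) := by
      rw [← rpow_natCast, ← rpow_mul hdp.le]; congr 1; push_cast; ring
    have a7 : (d : ℝ) ^ (1 - a' - 3 * u - a) * (V * (d : ℝ) ^ (3 * u) * Z) = d := by
      rw [hV, hZ, ← rpow_add hdp, ← rpow_add hdp, ← rpow_add hdp]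
      rw [show 1 - a' - 3 * u - a + (a' + 3 * u + a) = 1 by ring, rpow_one]
    have a8 : 0 ≤ V * (d : ℝ) ^ (3 * u) * Z := by positivity
    calc (X : ℝ) * (U : ℝ) ^ 3 * log (2 * (U : ℝ) ^ 2) ^ 4 * (d : ℝ) ^ a
        ≤ V * ((d : ℝ) ^ u) ^ 3 * L ^ 4 * Z := by
          apply mul_le_mul_of_nonneg_right _ hZ0.le
          apply mul_le_mul (mul_le_mul hX1 a2 (by positivity) (by positivity)) a5
            (by positivity) (by positivity)
      _ = L ^ 4 * (V * (d : ℝ) ^ (3 * u) * Z) := by rw [a6]; ring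
      _ ≤ (c / 2 * (d : ℝ) ^ (1 - a' - 3 * u - a)) * (V * (d : ℝ) ^ (3 * u) * Z) :=
          mul_le_mul_of_nonneg_right g1 a8
      _ = c / 2 * ((d : ℝ) ^ (1 - a' - 3 * u - a) * (V * (d : ℝ) ^ (3 * u) * Z)) := by ring
      _ = c / 2 * d := by rw [a7]
      _ ≤ c * d := by have := mul_pos hc hdp; linarith
  · intro B₁ B₂ hB1 hB2p hB2
    have hlog2 : (0.69 : ℝ) ≤ log 2 := by linarith [log_two_gt_d9]
    have hlog2p : 0 < log (2 : ℝ) := by linarith
    have hlD : log (D : ℝ) ≤ 4 / 3 * L := by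
      have := log_le_log hDp hD
      rw [log_rpow hdp] at this
      have h5 : (1 + δ) * L ≤ 4 / 3 * L := mul_le_mul_of_nonneg_right (by linarith) hL0.le
      linarith
    have hlDL : L ≤ log (D : ℝ) := log_le_log hdp hdD'
    have c1 : (B₁.card : ℝ) ≤ 2 * L := by
      have h3 : ((2 : ℝ) ^ B₁.card) ≤ D := by exact_mod_cast hB1
      have h := log_le_log (by positivity) h3
      rw [log_pow] at h
      have h4 : (B₁.card : ℝ) * 0.69 ≤ B₁.card * log 2 :=
        mul_le_mul_of_nonneg_left hlog2 (by positivity)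
      linarith
    have c2 : (B₂.card : ℝ) ≤ 24 * (L + Z) := by
      have h3 : (B₂.card : ℝ) * log 2 ≤ ∑ p ∈ B₂, log (p : ℝ) := by
        rw [← nsmul_eq_mul]
        refine Finset.card_nsmul_le_sum _ _ _ fun p hp => ?_
        exact log_le_log (by norm_num) (by exact_mod_cast (hB2p p hp).two_le)
      have h4 : (B₂.card : ℝ) * 0.69 ≤ B₂.card * log 2 :=
        mul_le_mul_of_nonneg_left hlog2 (by positivity)
      linarith
    have hθ : V / 2 ≤ Chebyshev.theta X := by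
      have e5 := Chebyshev.theta_ge X
      have e6 : 2 * √(X : ℝ) * log X ≤ 2 * (W * L) := by
        calc 2 * √(X : ℝ) * log X = 2 * (√(X : ℝ) * log X) := by ring
          _ ≤ 2 * (W * L) := by
            have := mul_le_mul hsX hlX hlX0 hW0.le
            linarith
      have e7 : (V - 1) * 0.69 ≤ X * log 2 := by
        calc (V - 1) * 0.69 ≤ X * 0.69 := by linarith
          _ ≤ X * log 2 := mul_le_mul_of_nonneg_left hlog2 (by linarith)
      linarith
    have hbig : ((K : ℝ) + √(X : ℝ) + 2 * L + 24 * (L + Z)) * L < V / 2 := by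
      have e1 : (K : ℝ) * L ≤ L * L := mul_le_mul_of_nonneg_right hLK hL0.le
      have e2 : √(X : ℝ) * L ≤ W * L := mul_le_mul_of_nonneg_right hsX hL0.le
      have e3 : ((K : ℝ) + √(X : ℝ) + 2 * L + 24 * (L + Z)) * L =
          K * L + √(X : ℝ) * L + 26 * (L * L) + 24 * (Z * L) := by ring
      rw [e3]
      linarith
    obtain ⟨P, hP1, hP2, hP3⟩ := many_primes X K L V _ _ hX3 hlX hθ B₁ B₂ c1 c2 hbig
    refine ⟨P, hP1, ?_⟩
    intro N hN
    rw [hP2] at hN ⊢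
    -- lower bound
    have hlow : (K : ℝ) * (log X / 2) ≤ ∑ p ∈ P, log (p : ℝ) := by
      rw [← hP2, ← nsmul_eq_mul]
      refine Finset.card_nsmul_le_sum _ _ _ fun p hp => ?_
      have h3 := hP3 p hp
      have h4 := log_le_log (sqrt_pos.2 (by linarith)) h3
      rwa [log_sqrt (by linarith)] at h4
    have hlXlow : 4 / 5 * a' * L ≤ log (X : ℝ) := by
      have h3 : V / 2 ≤ X := by linarith
      have h4 := log_le_log (by positivity) h3
      rw [log_div hV0.ne' (by norm_num), hV, log_rpow hdp] at h4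
      have h5 : log (2 : ℝ) ≤ 1 := by linarith [log_two_lt_d9]
      rw [div_le_iff₀ ha'0] at hLa
      have h6 : 1 ≤ a' * L / 5 := by linarith
      rw [← hL] at h4
      linarith
    have hR : 3 * K * L ≤ T * ((∑ p ∈ P, log (p : ℝ)) / 2) := by
      have h3 : (K : ℝ) * (4 / 5 * a' * L / 2) ≤ K * (log X / 2) := by gcongr
      have h4 : (T : ℝ) * ((K * (4 / 5 * a' * L / 2)) / 2) ≤
          T * ((∑ p ∈ P, log (p : ℝ)) / 2) := by
        have := h3.trans hlow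
        gcongr
      have h5 : (T : ℝ) * ((K * (4 / 5 * a' * L / 2)) / 2) = (T * a' / 5) * (K * L) := by ring
      rw [h5] at h4
      have h6 : 3 * (K * L) ≤ (T * a' / 5) * (K * L) :=
        mul_le_mul_of_nonneg_right hTa (by positivity)
      linarith
    -- `N`
    have hNr : (N : ℝ) = (((4 * D / U : ℕ) : ℝ) + 2) * G := by
      rw [hN, hG]; push_cast; ring
    have d2 : ((4 * D / U : ℕ) : ℝ) ≤ 4 * D / U := by
      have := @Nat.cast_div_le ℝ _ _ _ (4 * D) U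
      refine this.trans (le_of_eq ?_)
      push_cast
      rfl
    have d4 : (4 * D / U : ℝ) ≤ 2 * D := by
      rw [div_le_iff₀ (by linarith)]
      have := mul_le_mul_of_nonneg_left hU3' (show (0 : ℝ) ≤ 2 * D by linarith)
      linarith
    have hNp : (0 : ℝ) < N := by rw [hNr]; positivity
    have hN1 : (N : ℝ) ≤ D * (4 * G) := by
      rw [hNr]
      have : ((4 * D / U : ℕ) : ℝ) + 2 ≤ 4 * D := by linarith
      calc (((4 * D / U : ℕ) : ℝ) + 2) * G ≤ (4 * D) * G := by gcongr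
        _ = D * (4 * G) := by ring
    have hN2 : log (N : ℝ) ≤ 4 / 3 * L + log (4 * G) := by
      have := log_le_log hNp hN1
      rw [log_mul hDp.ne' (by positivity)] at this
      linarith
    have hN3 : (N : ℝ) / d ≤ 10 * G * (d : ℝ) ^ (δ - u) := by
      rw [div_le_iff₀ hdp, hNr]
      have e1 : (4 * D / U : ℝ) ≤ 8 * (d : ℝ) ^ (1 + δ - u) := by
        rw [rpow_sub hdp (1 + δ) u]
        rw [div_le_iff₀ (by linarith)]
        have e2 : 8 * ((d : ℝ) ^ (1 + δ) / (d : ℝ) ^ u) * U =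
            (d : ℝ) ^ (1 + δ) * (8 * U / (d : ℝ) ^ u) := by ring
        rw [e2]
        have e3 : 4 ≤ 8 * U / (d : ℝ) ^ u := by
          rw [le_div_iff₀ (by positivity)]; linarith
        calc (4 * D : ℝ) ≤ 4 * (d : ℝ) ^ (1 + δ) := by linarith
          _ = (d : ℝ) ^ (1 + δ) * 4 := by ring
          _ ≤ _ := mul_le_mul_of_nonneg_left e3 (by positivity)
      have e4 : (1 : ℝ) ≤ (d : ℝ) ^ (1 + δ - u) := one_le_rpow h1d (by linarith)
      have e5 : (d : ℝ) ^ (1 + δ - u) = (d : ℝ) ^ (δ - u) * d := by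
        rw [show 1 + δ - u = (δ - u) + 1 by ring, rpow_add hdp, rpow_one]
      calc (((4 * D / U : ℕ) : ℝ) + 2) * G ≤ (10 * (d : ℝ) ^ (1 + δ - u)) * G := by
            apply mul_le_mul_of_nonneg_right _ (by linarith)
            linarith
        _ = 10 * G * (d : ℝ) ^ (δ - u) * d := by rw [e5]; ring
    have hsumP : ∑ p ∈ P, (p : ℝ) ≤ K * V := by
      rw [← hP2, ← nsmul_eq_mul]
      refine Finset.sum_le_card_nsmul _ _ _ fun p hp => ?_
      have : (p : ℝ) ≤ X := by exact_mod_cast (hP1 p hp).2.1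
      linarith
    have hsumP0 : 0 ≤ ∑ p ∈ P, (p : ℝ) := Finset.sum_nonneg fun p _ => Nat.cast_nonneg p
    have hTs : (T : ℝ) ^ 2 + ∑ p ∈ P, (p : ℝ) ≤ A * V := by
      have h3 : (T : ℝ) ^ 2 ≤ (T : ℝ) ^ 2 * V := by
        have : 1 ≤ V := by linarith
        exact le_mul_of_one_le_right (sq_nonneg _) this
      calc (T : ℝ) ^ 2 + ∑ p ∈ P, (p : ℝ) ≤ (T : ℝ) ^ 2 * V + K * V := by linarith
        _ = A * V := by rw [hA]; ring
    have hE3 : 2 * (d : ℝ) ^ a * ((N : ℝ) / d) * ((T : ℝ) ^ 2 + ∑ p ∈ P, (p : ℝ)) ≤ 1 := by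
      have q1 : (d : ℝ) ^ (u - (a + δ + a')) * (Z * (d : ℝ) ^ (δ - u) * V) = 1 := by
        rw [hZ, hV, ← rpow_add hdp, ← rpow_add hdp, ← rpow_add hdp]
        rw [show u - (a + δ + a') + (a + (δ - u) + a') = 0 by ring, rpow_zero]
      have q2 : 0 < Z * (d : ℝ) ^ (δ - u) * V := by positivity
      calc 2 * (d : ℝ) ^ a * ((N : ℝ) / d) * ((T : ℝ) ^ 2 + ∑ p ∈ P, (p : ℝ))
          ≤ 2 * Z * (10 * G * (d : ℝ) ^ (δ - u)) * (A * V) := by
            apply mul_le_mul _ hTs (by positivity) (by positivity)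
            exact mul_le_mul_of_nonneg_left hN3 (by positivity)
        _ = 20 * G * A * (Z * (d : ℝ) ^ (δ - u) * V) := by ring
        _ ≤ (d : ℝ) ^ (u - (a + δ + a')) * (Z * (d : ℝ) ^ (δ - u) * V) :=
            mul_le_mul_of_nonneg_right g6 q2.le
        _ = 1 := q1
    have hA0 : (0 : ℝ) < A := by linarith
    have hT3 : (T : ℝ) ^ 2 ≤ (T : ℝ) ^ 3 := pow_le_pow_right₀ hTr (by norm_num)
    have hT30 : (1 : ℝ) ≤ (T : ℝ) ^ 3 := one_le_pow₀ hTr
    calc ((T : ℝ) ^ 2 + K) * log (D * ((T : ℝ) ^ 2 + K)) + (T : ℝ) ^ 3 * log N +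
          2 * (d : ℝ) ^ a * ((N : ℝ) / d) * ((T : ℝ) ^ 2 + ∑ p ∈ P, (p : ℝ))
        ≤ A * (4 / 3 * L + log A) + (T : ℝ) ^ 3 * (4 / 3 * L + log (4 * G)) + 1 := by
          have h3 : log (D * ((T : ℝ) ^ 2 + K)) ≤ 4 / 3 * L + log A := by
            rw [log_mul hDp.ne' hA0.ne']
            linarith
          have h4 : ((T : ℝ) ^ 2 + K) * log (D * ((T : ℝ) ^ 2 + K)) ≤ A * (4 / 3 * L + log A) :=
            mul_le_mul_of_nonneg_left h3 hA0.le
          have h5 : (T : ℝ) ^ 3 * log N ≤ (T : ℝ) ^ 3 * (4 / 3 * L + log (4 * G)) :=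
            mul_le_mul_of_nonneg_left hN2 (by positivity)
          linarith
      _ = 4 / 3 * L * (A + (T : ℝ) ^ 3) + C0 := by rw [hC0]; ring
      _ ≤ 4 / 3 * L * (4 * (T : ℝ) ^ 3) + C0 := by
          have : A + (T : ℝ) ^ 3 ≤ 4 * (T : ℝ) ^ 3 := by rw [hA, hKr]; linarith
          gcongr
      _ < 3 * K * L := by
          rw [hKr]
          have h7 : L ≤ (T : ℝ) ^ 3 * L := le_mul_of_one_le_left hL0.le hT30
          linarith
      _ ≤ _ := hR

end Pool.Agent.D0H98.MD
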