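import Pool.Agent.D0H56.MD.Defs

/-! # Row operations -/

set_option autoImplicit false

open Module Polynomial Finset

namespace Pool.Agent.D0H98.MD

open Pool.Agent.D0H56.MD

/-- truncated binomial expansion -/
lemma trunc (O : Subring ℂ) {α h p : ℂ} (hα : α ∈ O) (hh : h ∈ O) (hp : p ∈ O) (m T : ℕ) :
    ∃ e ∈ O, (α + p * h) ^ m =
      (∑ i : Fin T, ((m.choose (i : ℕ) : ℕ) : ℂ) * α ^ (m - (i : ℕ)) * (p * h) ^ (i : ℕ)) +
        p ^ T * e := by
  have h1 : (α + p * h) ^ m = ∑ i ∈ range (T + (m + 1)),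
      ((m.choose i : ℕ) : ℂ) * α ^ (m - i) * (p * h) ^ i := by
    rw [add_comm, add_pow]
    have h2 : ∑ i ∈ range (m + 1), (p * h) ^ i * α ^ (m - i) * ((m.choose i : ℕ) : ℂ) =
        ∑ i ∈ range (m + 1), ((m.choose i : ℕ) : ℂ) * α ^ (m - i) * (p * h) ^ i :=
      sum_congr rfl fun i _ => by ring
    rw [h2]
    refine sum_subset (range_subset_range.2 (by omega)) fun i _ hi => ?_
    rw [mem_range, not_lt] at hi
    rw [Nat.choose_eq_zero_of_lt (by omega)]
    simp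
  rw [h1, sum_range_add, ← Fin.sum_univ_eq_sum_range
    (fun i => ((m.choose i : ℕ) : ℂ) * α ^ (m - i) * (p * h) ^ i) T]
  refine ⟨∑ i ∈ range (m + 1), ((m.choose (T + i) : ℕ) : ℂ) * α ^ (m - (T + i)) *
    (p ^ i * h ^ (T + i)), ?_, ?_⟩
  · refine O.sum_mem fun i _ => ?_
    exact O.mul_mem (O.mul_mem (natCast_mem O _) (O.pow_mem hα _))
      (O.mul_mem (O.pow_mem hp _) (O.pow_mem hh _))
  · congr 1
    rw [mul_sum]
    refine sum_congr rfl fun i _ => ?_
    rw [mul_pow, pow_add p]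
    ring

lemma det_mem (O : Subring ℂ) {ι : Type} [Fintype ι] [DecidableEq ι] (A : Matrix ι ι ℂ)
    (hA : ∀ i j, A i j ∈ O) : A.det ∈ O := by
  rw [Matrix.det_apply]
  refine O.sum_mem fun τ _ => ?_
  rcases Int.units_eq_one_or (Equiv.Perm.sign τ) with h | h
  · rw [h, one_smul]
    exact O.prod_mem fun i _ => hA _ _
  · rw [h, Units.neg_smul, one_smul]
    exact O.neg_mem (O.prod_mem fun i _ => hA _ _)

/-- algebraic integers belong to every valuation ring -/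
lemma int_mem (O : ValuationSubring ℂ) {z : ℂ} (hz : IsIntegral ℤ z) : z ∈ O := by
  have h1 : IsIntegral O z := hz.tower_top
  obtain ⟨y, hy⟩ := (IsIntegrallyClosed.isIntegral_iff (R := O) (K := ℂ)).1 h1
  rw [← hy]
  exact y.2

/-- the divisibility of the determinant -/
lemma det_rows (O : Subring ℂ) {ι κ : Type} [Fintype ι] [DecidableEq ι] [Fintype κ]
    [DecidableEq κ] (T : ℕ) {p : ℂ} (hp : p ∈ O)
    -- rows: `ι × (Fin T × Fin T ⊕ κ)`
    (D : Matrix (ι × ((Fin T × Fin T) ⊕ κ)) (ι × ((Fin T × Fin T) ⊕ κ)) ℂ) (hD : ∀ r s, D r s ∈ O)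
    (k0 : κ) (G : Finset ι) (f : ι → ι) (cf : ι → Fin T × Fin T → ℂ) (hcf : ∀ σ ∈ G, ∀ ij, cf σ ij ∈ O)
    (hrow : ∀ σ ∈ G, ∀ s, ∃ e ∈ O, D (σ, Sum.inr k0) s =
      (∑ ij, cf σ ij * D (f σ, Sum.inl ij) s) + p ^ T * e) :
    ∃ e ∈ O, D.det = p ^ (T * G.card) * e := by
  classical
  -- the operation
  set L : Matrix (ι × ((Fin T × Fin T) ⊕ κ)) (ι × ((Fin T × Fin T) ⊕ κ)) ℂ :=
    Matrix.of fun r s => Sum.elim (fun _ => 0) (fun k => if k = k0 ∧ r.1 ∈ G then
      (if s.1 = f r.1 then Sum.elim (fun ij => cf r.1 ij) (fun _ => 0) s.2 else 0) else 0) r.2 with hL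
  have Linl : ∀ σ ij s, L (σ, Sum.inl ij) s = 0 := fun σ ij s => rfl
  have Linr : ∀ σ k s, L (σ, Sum.inr k) s = if k = k0 ∧ σ ∈ G then
      (if s.1 = f σ then Sum.elim (fun ij => cf σ ij) (fun _ => 0) s.2 else 0) else 0 :=
    fun σ k s => rfl
  have LO : ∀ r s, L r s ∈ O := by
    rintro ⟨σ, ij | k⟩ ⟨τ, ij' | k'⟩
    · rw [Linl]; exact O.zero_mem
    · rw [Linl]; exact O.zero_mem
    · rw [Linr]
      split_ifs with h1 h2
      · exact hcf σ h1.2 ij'
      · exact O.zero_mem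
      · exact O.zero_mem
    · rw [Linr]
      split_ifs with h1 h2
      · exact O.zero_mem
      · exact O.zero_mem
      · exact O.zero_mem
  have LD : ∀ (A : Matrix (ι × ((Fin T × Fin T) ⊕ κ)) (ι × ((Fin T × Fin T) ⊕ κ)) ℂ) σ k s,
      (L * A) (σ, Sum.inr k) s = if k = k0 ∧ σ ∈ G then
        ∑ ij, cf σ ij * A (f σ, Sum.inl ij) s else 0 := by
    intro A σ k s
    rw [Matrix.mul_apply]
    simp_rw [Linr]
    split_ifs with h
    · rw [Fintype.sum_prod_type]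
      rw [sum_eq_single (f σ)]
      · simp
      · intro b _ hb
        refine sum_eq_zero fun t _ => ?_
        simp [hb]
      · intro h'; exact absurd (mem_univ _) h'
    · simp
  have LD0 : ∀ (A : Matrix (ι × ((Fin T × Fin T) ⊕ κ)) (ι × ((Fin T × Fin T) ⊕ κ)) ℂ) σ ij s,
      (L * A) (σ, Sum.inl ij) s = 0 := by
    intro A σ ij s
    rw [Matrix.mul_apply]
    simp [Linl]
  have LL : L * L = 0 := by
    ext ⟨σ, ij | k⟩ s
    · rw [LD0]; rfl
    · rw [LD]
      simp [Linl]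
  set D1 := D - L * D with hD1
  have hDe : ∀ r s, D1 r s = D r s - (L * D) r s := fun r s => rfl
  have e1 : D = (1 + L) * D1 := by
    rw [hD1, Matrix.mul_sub, Matrix.add_mul, Matrix.add_mul, Matrix.one_mul, Matrix.one_mul,
      ← Matrix.mul_assoc, LL, Matrix.zero_mul, add_zero, add_sub_cancel_right]
  have h1L : (1 + L).det ∈ O := by
    refine det_mem O _ fun i j => ?_
    rw [Matrix.add_apply]
    refine O.add_mem ?_ (LO i j)
    rw [Matrix.one_apply]
    split_ifs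
    · exact O.one_mem
    · exact O.zero_mem
  -- the factors of the rows
  set v : ι × ((Fin T × Fin T) ⊕ κ) → ℂ := fun r => if r.2 = Sum.inr k0 ∧ r.1 ∈ G then p ^ T else 1
    with hv
  have hD1 : ∀ r s, ∃ e ∈ O, D1 r s = v r * e := by
    rintro ⟨σ, ij | k⟩ s
    · refine ⟨D (σ, Sum.inl ij) s, hD _ _, ?_⟩
      rw [hDe, LD0, sub_zero]
      simp [hv]
    · by_cases h : k = k0 ∧ σ ∈ G
      · obtain ⟨rfl, hσ⟩ := h
        obtain ⟨e, he, heq⟩ := hrow σ hσ s
        refine ⟨e, he, ?_⟩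
        rw [hDe, LD, if_pos ⟨rfl, hσ⟩, heq]
        simp [hv, hσ]
      · refine ⟨D (σ, Sum.inr k) s, hD _ _, ?_⟩
        rw [hDe, LD, if_neg h, sub_zero]
        have : ¬ ((Sum.inr k : (Fin T × Fin T) ⊕ κ) = Sum.inr k0 ∧ σ ∈ G) := by
          rintro ⟨h1, h2⟩
          exact h ⟨Sum.inr_injective h1, h2⟩
        simp only [hv, if_neg this, one_mul]
  choose E hE hEq using hD1
  have e2 : D1 = Matrix.of fun r s => v r * (Matrix.of E) r s := by
    ext r s
    exact hEq r s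
  have e3 : ∏ r, v r = p ^ (T * G.card) := by
    rw [Fintype.prod_prod_type]
    have h2 : ∀ σ, ∏ ρ : (Fin T × Fin T) ⊕ κ, v (σ, ρ) = if σ ∈ G then p ^ T else 1 := by
      intro σ
      rw [prod_eq_single (Sum.inr k0)]
      · simp [hv]
      · intro b _ hb
        simp [hv, hb]
      · intro h; exact absurd (mem_univ _) h
    simp_rw [h2]
    rw [prod_ite_mem, univ_inter, prod_const, ← pow_mul]
  refine ⟨(1 + L).det * (Matrix.of E).det, O.mul_mem h1L (det_mem O _ fun i j => hE i j), ?_⟩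
  rw [e1, Matrix.det_mul, e2, Matrix.det_mul_column, e3]
  ring

theorem rows : S_ROWS := by
  intro K _ _ x y T P M A p O G hx hy hp hpP hpO hG hA
  classical
  have hxO : ∀ σ : K →+* ℂ, σ x ∈ O := fun σ => int_mem O (map_isIntegral_int σ hx)
  have hyO : ∀ σ : K →+* ℂ, σ y ∈ O := fun σ => int_mem O (map_isIntegral_int σ hy)
  have hpm : (p : ℂ) ∈ O := natCast_mem O p
  choose! f hf using hG
  obtain ⟨e, he, hDl⟩ : ∃ e ∈ O.toSubring, Dl T P x y M = (p : ℂ) ^ (T * G.card) * e := by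
    unfold Dl
    have hf1 : ∀ σ ∈ G, ∃ h ∈ O, (σ x) ^ p - f σ x = p * h := fun σ hσ => (hf σ hσ).1
    have hf2 : ∀ σ ∈ G, ∃ h ∈ O, (σ y) ^ p - f σ y = p * h := fun σ hσ => (hf σ hσ).2
    choose! a ha haq using hf1
    choose! b hb hbq using hf2
    refine det_rows O.toSubring T hpm _ ?_ (⟨p, hpP⟩ : P) G f
      (fun σ ij => ((p : ℂ) * a σ) ^ (ij.1 : ℕ) * ((p : ℂ) * b σ) ^ (ij.2 : ℕ)) ?_ ?_
    · rintro ⟨σ, ij | q⟩ s
      · simp only [Matrix.of_apply, u]
        rw [map_mul, map_mul, map_mul, map_pow, map_pow, map_natCast, map_natCast]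
        exact O.mul_mem _ _ (O.mul_mem _ _ (natCast_mem O _) (pow_mem (hxO σ) _))
          (O.mul_mem _ _ (natCast_mem O _) (pow_mem (hyO σ) _))
      · simp only [Matrix.of_apply, u]
        rw [map_mul, map_pow, map_pow, map_pow, map_pow]
        exact O.mul_mem _ _ (pow_mem (pow_mem (hxO σ) _) _) (pow_mem (pow_mem (hyO σ) _) _)
    · intro σ hσ ij
      exact O.mul_mem _ _ (pow_mem (O.mul_mem _ _ hpm (ha σ hσ)) _)
        (pow_mem (O.mul_mem _ _ hpm (hb σ hσ)) _)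
    · intro σ hσ s
      obtain ⟨e1, he1, h1⟩ := trunc O.toSubring (hxO (f σ)) (ha σ hσ) hpm (M s).1 T
      obtain ⟨e2, he2, h2⟩ := trunc O.toSubring (hyO (f σ)) (hb σ hσ) hpm (M s).2 T
      have q1 : (σ x) ^ p = f σ x + p * a σ := by rw [← haq σ hσ]; ring
      have q2 : (σ y) ^ p = f σ y + p * b σ := by rw [← hbq σ hσ]; ring
      set S1 := ∑ i : Fin T, (((M s).1.choose (i : ℕ) : ℕ) : ℂ) * (f σ x) ^ ((M s).1 - (i : ℕ)) *
        (p * a σ) ^ (i : ℕ) with hS1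
      set S2 := ∑ i : Fin T, (((M s).2.choose (i : ℕ) : ℕ) : ℂ) * (f σ y) ^ ((M s).2 - (i : ℕ)) *
        (p * b σ) ^ (i : ℕ) with hS2
      have hS1O : S1 ∈ O := by
        refine O.toSubring.sum_mem fun i _ => ?_
        exact O.mul_mem _ _ (O.mul_mem _ _ (natCast_mem O _) (pow_mem (hxO _) _))
          (pow_mem (O.mul_mem _ _ hpm (ha σ hσ)) _)
      refine ⟨e1 * (f σ y + p * b σ) ^ (M s).2 + S1 * e2, ?_, ?_⟩
      · refine O.add_mem _ _ (O.mul_mem _ _ he1 (pow_mem (O.add_mem _ _ (hyO _)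
          (O.mul_mem _ _ hpm (hb σ hσ))) _)) (O.mul_mem _ _ hS1O he2)
      · simp only [Matrix.of_apply, u]
        rw [map_mul, map_pow, map_pow, map_pow, map_pow, q1, q2]
        have h3 : ∑ ij : Fin T × Fin T, ((p : ℂ) * a σ) ^ (ij.1 : ℕ) * ((p : ℂ) * b σ) ^ (ij.2 : ℕ) *
            (f σ) ((((M s).1.choose (ij.1 : ℕ) : ℕ) : K) * x ^ ((M s).1 - (ij.1 : ℕ)) *
              ((((M s).2.choose (ij.2 : ℕ) : ℕ) : K) * y ^ ((M s).2 - (ij.2 : ℕ)))) = S1 * S2 := by
          rw [hS1, hS2, sum_mul_sum, Fintype.sum_prod_type]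
          refine sum_congr rfl fun i _ => sum_congr rfl fun j _ => ?_
          rw [map_mul, map_mul, map_mul, map_pow, map_pow, map_natCast, map_natCast]
          ring
        rw [h3]
        calc (f σ x + p * a σ) ^ (M s).1 * (f σ y + p * b σ) ^ (M s).2 =
            (S1 + p ^ T * e1) * (f σ y + p * b σ) ^ (M s).2 := by rw [h1]
          _ = S1 * (f σ y + p * b σ) ^ (M s).2 + p ^ T * (e1 * (f σ y + p * b σ) ^ (M s).2) := by ring
          _ = S1 * (S2 + p ^ T * e2) + p ^ T * (e1 * (f σ y + p * b σ) ^ (M s).2) := by rw [← h2]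
          _ = _ := by ring
  have he' : e ∈ O := he
  -- divisibility in `ℤ`
  by_cases hA0 : A = 0
  · rw [hA0]; exact dvd_zero _
  rw [hDl] at hA
  have hA2 : (A : ℂ) = (p : ℂ) ^ (2 * T * G.card) * (e * e) := by
    rw [hA]; ring
  have hpp : Prime (p : ℤ) := Nat.prime_iff_prime_int.1 hp
  obtain ⟨k, a', ha', hAk⟩ : ∃ (k : ℕ) (a' : ℤ), ¬ (p : ℤ) ∣ a' ∧ A = (p : ℤ) ^ k * a' := by
    obtain ⟨k, a', h1, h2⟩ := WfDvdMonoid.max_power_factor hA0 hpp.irreducible
    exact ⟨k, a', h1, h2⟩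
  by_contra hcon
  have hk : k < 2 * T * G.card := by
    by_contra hk
    rw [not_lt] at hk
    exact hcon (by rw [hAk]; exact Dvd.dvd.mul_right (pow_dvd_pow _ hk) _)
  -- `a'` is a unit
  have hcop : IsCoprime (p : ℤ) a' := (hpp.coprime_iff_not_dvd).2 ha'
  obtain ⟨c, d, hcd⟩ := hcop
  have hpv : O.valuation (p : ℂ) < 1 := hpO
  have hd1 : O.valuation ((d : ℂ) * (a' : ℂ)) = 1 := by
    have h1 : (d : ℂ) * a' = 1 + -((c : ℂ) * p) := by
      have : ((c * (p : ℤ) + d * a' : ℤ) : ℂ) = 1 := by rw [hcd]; simp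
      push_cast at this
      linear_combination this
    rw [h1]
    have h2 : O.valuation (-((c : ℂ) * p)) < 1 := by
      rw [Valuation.map_neg, map_mul]
      have hc : O.valuation (c : ℂ) ≤ 1 := (O.valuation_le_one_iff _).2 (intCast_mem O c)
      exact mul_lt_one_of_nonneg_of_lt_one_right hc zero_le hpv
    rw [Valuation.map_add_eq_of_lt_left, Valuation.map_one]
    rwa [Valuation.map_one]
  have hp0 : (p : ℂ) ≠ 0 := by exact_mod_cast hp.ne_zero
  have hcan : (a' : ℂ) = (p : ℂ) ^ (2 * T * G.card - k) * (e * e) := by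
    have h1 : (p : ℂ) ^ k * a' = (p : ℂ) ^ k * ((p : ℂ) ^ (2 * T * G.card - k) * (e * e)) := by
      rw [← mul_assoc, ← pow_add, show k + (2 * T * G.card - k) = 2 * T * G.card by omega, ← hA2, hAk]
      push_cast
      ring
    exact mul_left_cancel₀ (pow_ne_zero k hp0) h1
  have hlt : O.valuation ((d : ℂ) * (a' : ℂ)) < 1 := by
    rw [hcan, map_mul, map_mul, map_pow]
    have h1 : O.valuation (d : ℂ) ≤ 1 := (O.valuation_le_one_iff _).2 (intCast_mem O d)
    have h2 : O.valuation (e * e) ≤ 1 := (O.valuation_le_one_iff _).2 (O.mul_mem _ _ he' he')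
    have h3 : O.valuation (p : ℂ) ^ (2 * T * G.card - k) < 1 := pow_lt_one₀ zero_le hpv (by omega)
    calc O.valuation (d : ℂ) * (O.valuation (p : ℂ) ^ (2 * T * G.card - k) * O.valuation (e * e)) ≤
        1 * (O.valuation (p : ℂ) ^ (2 * T * G.card - k) * 1) := by gcongr
      _ = O.valuation (p : ℂ) ^ (2 * T * G.card - k) := by rw [one_mul, mul_one]
      _ < 1 := h3
  rw [hd1] at hlt
  exact lt_irrefl _ hlt

end Pool.Agent.D0H98.MD
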